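import Pool.Agent.H77.BD.Targets

/-!
# Board `bct_modules`, row BRC: the number `k` in the presence of a branch vertex
-/

set_option autoImplicit false

open Set Matrix Pool.Agent.H77.BC Pool.Agent.H77.BD

namespace Pool.Agent.H4.BCT

variable {l : ℕ} {C : Matrix (Fin l) (Fin l) ℤ}

theorem si_apply (i j : Fin l) : (si i : Fin l → ℤ) j = if j = i then 1 else 0 := by
  unfold si
  rw [Pi.single_apply]

theorem brc_tri (hC : Cartan C) {b i j : Fin l} (hbi : C b i = -1) (hbj : C b j = -1)
    (hij : i ≠ j) : C i j = 0 := by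
  rcases hC.off i j hij with h | h
  · exact h
  · exfalso
    have hi : b ≠ i := by
      intro e
      rw [e, hC.diag] at hbi
      norm_num at hbi
    have hj : b ≠ j := by
      intro e
      rw [e, hC.diag] at hbj
      norm_num at hbj
    have h1 : (si b + si i + si j : Fin l → ℤ) ≠ 0 := by
      intro e
      have := congrFun e b
      simp only [Pi.add_apply, si_apply, if_neg hi, if_neg hj, if_true, Pi.zero_apply] at this
      omega
    have h2 := hC.pos _ h1
    simp only [ip_add_left, ip_add_right, ip_si_si, hC.diag] at h2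
    rw [hC.symm i b, hC.symm j b, hC.symm j i, hbi, hbj, h] at h2
    norm_num at h2

/-- the sets `B_j` -/
def BB (C : Matrix (Fin l) (Fin l) ℤ) (b j : Fin l) : Set (Root C) :=
  {β | IsPos β ∧ ip C β.1 (si b) = 1 ∧ β.1 b = 1 ∧ 1 ≤ β.1 j}

theorem brc_nb (hC : Cartan C) {b m : Fin l} (hbm : C b m = -1) :
    ∃ β : Root C, β.1 = si b + si m ∧ β ∈ BB C b m := by
  have hm : b ≠ m := by
    intro e
    rw [e, hC.diag] at hbm
    norm_num at hbm
  have hr : ip C (sr hC b).1 (sr hC m).1 = -1 := by
    rw [sr_val, sr_val, ip_si_si, hbm]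
  refine ⟨ad hC (sr hC b) (sr hC m) hr, rfl, ?_, ?_, ?_, ?_⟩
  · intro i
    rw [ad_val, sr_val, sr_val, Pi.add_apply, si_apply, si_apply]
    split_ifs <;> norm_num
  · rw [ad_val, sr_val, sr_val, ip_add_left, ip_si_si, ip_si_si, hC.diag, hC.symm m b, hbm]
    norm_num
  · rw [ad_val, sr_val, sr_val, Pi.add_apply, si_apply, si_apply, if_pos rfl, if_neg hm]
    norm_num
  · rw [ad_val, sr_val, sr_val, Pi.add_apply, si_apply, si_apply, if_pos rfl, if_neg hm.symm]
    norm_num

theorem brc_nonempty (hC : Cartan C) (b : Fin l) (j : Fin l) (hj : j ≠ b) :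
    (BB C b j).Nonempty := by
  classical
  by_contra hne
  obtain ⟨i, hi, m, hm, him⟩ := hC.conn {x | x = b ∨ (BB C b x).Nonempty} ⟨b, Or.inl rfl⟩
    ⟨j, fun h => by
      rcases h with h | h
      · exact hj h
      · exact hne h⟩
  have hmb : m ≠ b := fun e => hm (Or.inl e)
  have hmB : ¬ (BB C b m).Nonempty := fun e => hm (Or.inr e)
  have him' : i ≠ m := fun e => hm (e ▸ hi)
  have hC1 : C i m = -1 := by
    rcases hC.off i m him' with h | h
    · exact absurd h him
    · exact h
  by_cases hib : i = b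
  · rw [hib] at hC1
    obtain ⟨β, _, hβ⟩ := brc_nb hC hC1
    exact hmB ⟨β, hβ⟩
  rcases hi with hi | hi
  · exact hib hi
  obtain ⟨β, hpos, hb1, hbb, hbi⟩ := hi
  have hβm : β.1 m = 0 := by
    by_contra h0
    have h1 := hpos m
    exact hmB ⟨β, hpos, hb1, hbb, by omega⟩
  have hip : ip C β.1 (si m) = -1 := by
    have h1 : ip C β.1 (sr hC m).1 ≤ -1 := by
      rw [sr_val, ip_si_right]
      have h2 : ∀ n ∈ Finset.univ.erase i, β.1 n * C n m ≤ 0 := by
        intro n _
        by_cases hn : n = m
        · rw [hn, hβm, zero_mul]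
        · have h3 := hpos n
          rcases hC.off n m hn with h | h
          · rw [h, mul_zero]
          · rw [h]
            omega
      rw [← Finset.add_sum_erase _ _ (Finset.mem_univ i), hC1]
      have h4 := Finset.sum_nonpos h2
      omega
    have h2 : -1 ≤ ip C β.1 (sr hC m).1 := by
      apply neg_one_le_ip hC
      intro e
      have h3 := congrFun e i
      rw [sr_val, si_apply, if_neg him', Pi.neg_apply] at h3
      omega
    rw [sr_val] at h1 h2
    omega
  have hip' : ip C β.1 (sr hC m).1 = -1 := hip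
  rcases hC.off m b hmb with h | h
  · refine hmB ⟨ad hC β (sr hC m) hip', ?_, ?_, ?_, ?_⟩
    · intro n
      rw [ad_val, sr_val, Pi.add_apply, si_apply]
      have := hpos n
      split_ifs <;> omega
    · rw [ad_val, sr_val, ip_add_left, hb1, ip_si_si, h]
      norm_num
    · rw [ad_val, sr_val, Pi.add_apply, si_apply, if_neg hmb.symm, hbb]
      norm_num
    · rw [ad_val, sr_val, Pi.add_apply, si_apply, if_pos rfl, hβm]
      norm_num
  · rw [hC.symm m b] at h
    obtain ⟨β', _, hβ'⟩ := brc_nb hC h
    exact hmB ⟨β', hβ'⟩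

theorem brc_min (hC : Cartan C) (b : Fin l) (j : Fin l) (hj : j ≠ b) :
    ∃ β ∈ BB C b j, ∀ β' ∈ BB C b j, ∑ i, β.1 i ≤ ∑ i, β'.1 i := by
  haveI := finRoot hC
  exact Set.exists_min_image (BB C b j) (fun β : Root C => ∑ i, β.1 i) (Set.toFinite _)
    (brc_nonempty hC b j hj)

theorem brc_inj (hC : Cartan C) (b j j' : Fin l) (hj : j ≠ b) (hj' : j' ≠ b) (β : Root C)
    (h1 : β ∈ BB C b j) (h2 : ∀ β' ∈ BB C b j, ∑ i, β.1 i ≤ ∑ i, β'.1 i)
    (h1' : β ∈ BB C b j') (h2' : ∀ β' ∈ BB C b j', ∑ i, β.1 i ≤ ∑ i, β'.1 i) : j = j' := by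
  classical
  by_contra hne
  obtain ⟨hpos, hb1, hbb, hbj⟩ := h1
  obtain ⟨_, _, _, hbj'⟩ := h1'
  have hs := β.2
  rw [ip_eq_sum_right, ← Finset.add_sum_erase _ _ (Finset.mem_univ b), hb1, hbb] at hs
  have hex : ∃ i ∈ Finset.univ.erase b, 0 < β.1 i * ip C β.1 (si i) := by
    by_contra hcon
    push Not at hcon
    have := Finset.sum_nonpos hcon
    omega
  obtain ⟨i, hi, hi2⟩ := hex
  have hib : i ≠ b := (Finset.mem_erase.1 hi).1
  have hp := hpos i
  have hip0 : 0 < ip C β.1 (si i) := by
    by_contra hcon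
    have := mul_nonpos_of_nonneg_of_nonpos hp (not_lt.1 hcon)
    omega
  have hbi : 0 < β.1 i := by
    rcases hp.lt_or_eq with h | h
    · exact h
    · rw [← h, zero_mul] at hi2
      exact absurd hi2 (lt_irrefl _)
  have hip1 : ip C β.1 (sr hC i).1 ≤ 1 := by
    apply ip_le_one hC
    intro e
    have h3 : β.1 b = (sr hC i).1 b := by rw [e]
    rw [sr_val, si_apply, if_neg hib.symm, hbb] at h3
    omega
  have hip : ip C β.1 (sr hC i).1 = 1 := by
    rw [sr_val] at hip1 ⊢
    omega
  have hval : (sb hC β (sr hC i) hip).1 = β.1 - si i := rfl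
  have hipb : ip C (sb hC β (sr hC i) hip).1 (si b) = 1 - C i b := by
    rw [hval, ip_sub_left, hb1, ip_si_si]
  have hposs : IsPos (sb hC β (sr hC i) hip) := by
    intro n
    rw [hval, Pi.sub_apply, si_apply]
    have := hpos n
    split_ifs with h
    · rw [h]
      omega
    · omega
  have hsb : (sb hC β (sr hC i) hip).1 b = 1 := by
    rw [hval, Pi.sub_apply, si_apply, if_neg hib.symm, hbb]
    norm_num
  rcases hC.off i b hib with h | h
  · rw [h] at hipb
    have hsum : ∑ n, (sb hC β (sr hC i) hip).1 n = ∑ n, β.1 n - 1 := by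
      rw [hval]
      simp only [Pi.sub_apply, Finset.sum_sub_distrib, si_apply, Finset.sum_ite_eq',
        Finset.mem_univ, if_true]
    have hjc : j ≠ i ∨ j' ≠ i := by
      by_contra hcon
      push Not at hcon
      exact hne (hcon.1.trans hcon.2.symm)
    rcases hjc with h3 | h3
    · have h4 := h2 (sb hC β (sr hC i) hip) ⟨hposs, by rw [hipb]; norm_num, hsb, by
        rw [hval, Pi.sub_apply, si_apply, if_neg h3]; omega⟩
      rw [hsum] at h4
      omega
    · have h4 := h2' (sb hC β (sr hC i) hip) ⟨hposs, by rw [hipb]; norm_num, hsb, by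
        rw [hval, Pi.sub_apply, si_apply, if_neg h3]; omega⟩
      rw [hsum] at h4
      omega
  · rw [h] at hipb
    have h3 : sb hC β (sr hC i) hip = sr hC b := by
      apply ip_eq_two hC
      rw [sr_val, hipb]
      norm_num
    have h4 : β.1 = si b + si i := by
      have := congrArg Subtype.val h3
      rw [hval, sr_val] at this
      rw [← this]
      abel
    have h5 : ∀ n, n ≠ b → 1 ≤ β.1 n → n = i := by
      intro n hn hn1
      by_contra hni
      rw [h4, Pi.add_apply, si_apply, si_apply, if_neg hn, if_neg hni] at hn1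
      omega
    exact hne ((h5 j hj hbj).trans (h5 j' hj' hbj').symm)

theorem brc_star (hC : Cartan C) {b i j m : Fin l} (hij : i ≠ j) (him : i ≠ m) (hjm : j ≠ m)
    (hbi : C b i = -1) (hbj : C b j = -1) (hbm : C b m = -1) :
    ∃ β : Root C, IsPos β ∧ ip C β.1 (si b) = 1 ∧ β.1 b = 2 := by
  have e1 := brc_tri hC hbi hbj hij
  have e2 := brc_tri hC hbi hbm him
  have e3 := brc_tri hC hbj hbm hjm
  have hne : ∀ x, C b x = -1 → b ≠ x := by
    intro x hx e
    rw [e, hC.diag] at hx
    norm_num at hx
  refine ⟨⟨si b + si b + si i + si j + si m, ?_⟩, ?_, ?_, ?_⟩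
  · simp only [ip_add_left, ip_add_right, ip_si_si, hC.diag]
    rw [hC.symm i b, hC.symm j b, hC.symm m b, hC.symm j i, hC.symm m i, hC.symm m j, hbi, hbj,
      hbm, e1, e2, e3]
    norm_num
  · intro n
    simp only [Pi.add_apply, si_apply]
    split_ifs <;> norm_num
  · simp only [ip_add_left, ip_si_si, hC.diag]
    rw [hC.symm i b, hC.symm j b, hC.symm m b, hbi, hbj, hbm]
    norm_num
  · simp only [Pi.add_apply, si_apply, if_neg (hne i hbi), if_neg (hne j hbj), if_neg (hne m hbm),
      if_true]
    norm_num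

theorem brc_fam (hC : Cartan C) {b i j m : Fin l} (hij : i ≠ j) (him : i ≠ m) (hjm : j ≠ m)
    (hbi : C b i = -1) (hbj : C b j = -1) (hbm : C b m = -1) :
    ∃ f : Fin l → Root C, Function.Injective f ∧
      ∀ n, IsPos (f n) ∧ ip C (f n).1 (si b) = 1 := by
  classical
  obtain ⟨βs, hs1, hs2, hs3⟩ := brc_star hC hij him hjm hbi hbj hbm
  choose g hg1 hg2 using fun (n : Fin l) (hn : n ≠ b) => brc_min hC b n hn
  refine ⟨fun n => if hn : n = b then βs else g n hn, ?_, ?_⟩
  · intro n n' h
    by_cases hn : n = b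
    · by_cases hn' : n' = b
      · rw [hn, hn']
      · exfalso
        simp only [dif_pos hn, dif_neg hn'] at h
        have := (hg1 n' hn').2.2.1
        rw [← h, hs3] at this
        norm_num at this
    · by_cases hn' : n' = b
      · exfalso
        simp only [dif_neg hn, dif_pos hn'] at h
        have := (hg1 n hn).2.2.1
        rw [h, hs3] at this
        norm_num at this
      · simp only [dif_neg hn, dif_neg hn'] at h
        refine brc_inj hC b n n' hn hn' (g n hn) (hg1 n hn) (hg2 n hn) ?_ ?_
        · rw [h]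
          exact hg1 n' hn'
        · rw [h]
          exact hg2 n' hn'
  · intro n
    by_cases hn : n = b
    · simp only [dif_pos hn]
      exact ⟨hs1, hs2⟩
    · simp only [dif_neg hn]
      exact ⟨(hg1 n hn).1, (hg1 n hn).2.1⟩

theorem pf_BRC (_hPOS : T_POS) : T_BRC := by
  classical
  intro l C hC hB k hk
  obtain ⟨b, i, j, m, hij, him, hjm, hbi, hbj, hbm⟩ := hB
  obtain ⟨f, hf, hf2⟩ := brc_fam hC hij him hjm hbi hbj hbm
  haveI := finRoot hC
  have hcard := hk.1 (sr hC b)
  have hflip : ∀ n, ip C (sr hC b).1 (f n).1 = 1 := fun n => by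
    rw [ip_comm hC, sr_val]
    exact (hf2 n).2
  have hg : ∀ n, ip C (sb hC (sr hC b) (f n) (hflip n)).1 (sr hC b).1 = 1 := fun n => by
    rw [sb_val, ip_sub_left, ip_self, sr_val, (hf2 n).2]
    norm_num
  let g : Fin l ⊕ Fin l → {β : Root C // ip C β.1 (sr hC b).1 = 1} := fun x => match x with
    | Sum.inl n => ⟨f n, (hf2 n).2⟩
    | Sum.inr n => ⟨sb hC (sr hC b) (f n) (hflip n), hg n⟩
  have hmix : ∀ n n', f n ≠ sb hC (sr hC b) (f n') (hflip n') := by
    intro n n' e
    have h1 : (f n).1 + (f n').1 = si b := by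
      rw [e, sb_val, sr_val]
      abel
    have h2 : ∀ x, (f n).1 x + (f n').1 x = if x = b then 1 else 0 := by
      intro x
      rw [← Pi.add_apply, h1, si_apply]
    have p1 := (hf2 n).1
    have p2 := (hf2 n').1
    have h3 := h2 b
    rw [if_pos rfl] at h3
    have q1 := p1 b
    have q2 := p2 b
    have hz : (f n).1 b = 0 ∨ (f n').1 b = 0 := by omega
    rcases hz with hz | hz
    · apply root_ne_zero (f n)
      funext x
      by_cases hx : x = b
      · rw [hx, hz]
        rfl
      · have h4 := h2 x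
        rw [if_neg hx] at h4
        have q3 := p1 x
        have q4 := p2 x
        show (f n).1 x = 0
        omega
    · apply root_ne_zero (f n')
      funext x
      by_cases hx : x = b
      · rw [hx, hz]
        rfl
      · have h4 := h2 x
        rw [if_neg hx] at h4
        have q3 := p1 x
        have q4 := p2 x
        show (f n').1 x = 0
        omega
  have hginj : Function.Injective g := by
    rintro (n | n) (n' | n') h
    · rw [hf (congrArg Subtype.val h)]
    · exact absurd (congrArg Subtype.val h) (hmix n n')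
    · exact absurd (congrArg Subtype.val h).symm (hmix n' n)
    · have h1 : sb hC (sr hC b) (f n) (hflip n) = sb hC (sr hC b) (f n') (hflip n') :=
        congrArg Subtype.val h
      have h2 := congrArg Subtype.val h1
      rw [sb_val, sb_val] at h2
      have h3 : (f n).1 = (f n').1 := sub_right_injective h2
      rw [hf (Subtype.ext h3)]
  have h1 := Nat.card_le_card_of_injective g hginj
  rw [hcard, Nat.card_sum, Nat.card_eq_fintype_card, Fintype.card_fin] at h1
  omega

end Pool.Agent.H4.BCT
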